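import Pool.Agent.MWKP.Stmts

/-!
# Squad MWKP, row LVN: implications between the bits
-/

set_option autoImplicit false

namespace Pool.Agent.MWKP.H33

open Pool.Agent.Helper14_MV Pool.Agent.Helper2_MV Pool.Agent.MWK Pool.Agent.MWKP

theorem pw_succ (k : ℕ) (X : List ℕ) : pw (k + 1) X = X ++ pw k X := by
  unfold pw
  rw [List.replicate_succ, List.flatten_cons]

theorem count_pw (k : ℕ) (X : List ℕ) (l : ℕ) : (pw k X).count l = k * X.count l := by
  induction k with
  | zero =>
    unfold pw
    rw [List.replicate_zero, List.flatten_nil, List.count_nil, zero_mul]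
  | succ k ih =>
    rw [pw_succ, List.count_append, ih]
    ring

theorem mem_pw (k : ℕ) (X : List ℕ) (l : ℕ) (h : l ∈ pw k X) : l ∈ X := by
  unfold pw at h
  rw [List.mem_flatten] at h
  obtain ⟨Y, hY, hl⟩ := h
  rw [List.eq_of_mem_replicate hY] at hl
  exact hl

theorem flatMap_replicate (k : ℕ) (g : ℕ → List ℕ) (a : ℕ) :
    (List.replicate k a).flatMap g = pw k (g a) := by
  induction k with
  | zero => rfl
  | succ k ih => rw [List.replicate_succ, List.flatMap_cons, ih, pw_succ]

theorem ok_gen {qs : List (List ℕ)} {A A' p p' : List ℕ} (h : Ok A p qs)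
    (hc : ∀ l, A.count l ≤ A'.count l) (hp : ∀ z ∈ p', z ∈ p ∨ 2 ≤ A'.count z) :
    Ok A' p' qs := by
  cases qs with
  | nil => exact trivial
  | cons q qs =>
    obtain ⟨h1, h2⟩ := h
    refine ⟨fun z hz => ?_, ?_⟩
    · have hcz := hc z
      rw [List.count_append]
      rcases hp z hz with h3 | h3
      · have := h1 z h3
        rw [List.count_append] at this
        omega
      · omega
    · refine T.okm qs (A ++ q) (A' ++ q) q q h2 (fun l => ?_) (fun z hz => hz)
      rw [List.count_append, List.count_append]
      have := hc l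
      omega

theorem wf_wb {n m : ℕ} {θ : FIC} (hn : 1 ≤ n) (h : WF m θ) : WBn n m θ := by
  intro P X C qs R hl hO
  refine h P (pw (2 * n) X) C qs R hl (ok_gen hO (fun l => ?_) (fun z hz => ?_))
  · simp only [List.count_append]
    omega
  · rcases List.mem_append.1 hz with hz | hz
    · right
      have h1 : 0 < X.count z := List.count_pos_iff.2 (mem_pw _ _ _ hz)
      simp only [List.count_append, count_pw]
      nlinarith
    · exact Or.inl hz

theorem wb_wd {n m e : ℕ} {θ : FIC} (kpg : KpgStmt) (hK : Kn n θ) (h : WBn n m θ) :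
    WDn n m e θ := by
  intro P X D C qs R hl hO _
  have hn := hK.pos
  have hm : n ≡ 2 * n [MOD n] := by
    rw [two_mul]
    simp [Nat.ModEq]
  have s1 := kpg n θ hK (P ++ X ++ D) X (C ++ qs.flatten ++ R) n (2 * n)
    (fun l hl => by simp [hl]) hn (by omega) hm
  have s2 := h (P ++ X ++ D) X C qs R hl hO
  have s3 := kpg n θ hK (P ++ X ++ D ++ C) X (qs.flatten ++ R) n (2 * n)
    (fun l hl => by simp [hl]) hn (by omega) hm
  simp only [List.append_assoc] at s1 s2 s3 ⊢
  exact θ.trans s1 (θ.trans s2 s3.symm)

theorem wb_wa {n m : ℕ} {θ : FIC} (kpg : KpgStmt) (hK : Kn n θ) (h : WBn n m θ) :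
    WAn n m θ := by
  intro P X C qs R hl hO
  have hn := hK.pos
  have hm : n ≡ 2 * n [MOD n] := by
    rw [two_mul]
    simp [Nat.ModEq]
  have s1 := kpg n θ hK (P ++ X) X (C ++ qs.flatten ++ R) n (2 * n)
    (fun l hl => by simp [hl]) hn (by omega) hm
  have s2 := h (P ++ X) X C qs R hl hO
  have s3 := kpg n θ hK (P ++ X ++ C) X (qs.flatten ++ R) n (2 * n)
    (fun l hl => by simp [hl]) hn (by omega) hm
  simp only [List.append_assoc] at s1 s2 s3 ⊢
  exact θ.trans s1 (θ.trans s2 s3.symm)

theorem wd_wd {n m e : ℕ} {θ : FIC} (he : 1 ≤ e) (hem : e + 1 ≤ m) (h : WDn n m e θ) :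
    WDn n m (e + 1) θ := by
  intro P X D C qs R hl hO hD
  refine h P X D C qs R hl hO (fun _ l hlD => ?_)
  have h1 := hD (by omega) l hlD
  refine le_trans h1 ?_
  have e1 : m + 2 - (e + 1) ≤ m + 2 - e := by omega
  have h2 : ((qs.take (m + 2 - (e + 1))).flatten).count l ≤
      ((qs.take (m + 2 - e)).flatten).count l := by
    have h3 : qs.take (m + 2 - (e + 1)) <+: qs.take (m + 2 - e) :=
      List.take_prefix_take_left e1
    obtain ⟨T, hT⟩ := h3
    rw [← hT, List.flatten_append, List.count_append]
    omega
  simp only [List.count_append] at h2 ⊢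
  omega

theorem wd_wa {n m e : ℕ} {θ : FIC} (h : WDn n m e θ) : WAn n m θ := by
  intro P X C qs R hl hO
  have := h P X [] C qs R hl (by simpa using hO) (by simp)
  simpa using this

/-- one half of `WAn → WF (m + 1)` -/
theorem wa_half {n m : ℕ} {θ : FIC} (kdd : KddStmt) (hK : Kn n θ) (h : WAn n m θ)
    (P Z q : List ℕ) (f : List (List ℕ)) (R : List ℕ) (hl : f.length = m)
    (hz : ∀ z ∈ Z, 2 ≤ (P ++ Z ++ q).count z) (hO : Ok (P ++ Z ++ q) q f) :
    RR θ (P ++ Z ++ q ++ f.flatten ++ R) (P ++ (Z ++ pw n Z) ++ (q ++ f.flatten ++ R)) := by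
  have s1 := kdd n θ hK (P ++ Z ++ q) [] (pw n Z) (f.flatten ++ R) (by simp)
    (fun l hl => hz l (mem_pw _ _ _ hl))
    (fun l => by
      rw [count_pw, List.count_nil]
      exact ((Nat.modEq_zero_iff_dvd).2 (Dvd.intro _ rfl)).symm)
  have s2 := h P Z q f R hl hO
  simp only [List.append_assoc, List.nil_append] at s1 s2 ⊢
  exact θ.trans s1 s2.symm

theorem wa_wf {n m : ℕ} {θ : FIC} (kdd : KddStmt) (kcl : KclStmt) (hK : Kn n θ)
    (h : WAn n m θ) : WF (m + 1) θ := by
  intro P X Y qs R hl hO
  have hn := hK.pos
  cases qs with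
  | nil => simp at hl
  | cons q f =>
    obtain ⟨h1, h2⟩ := hO
    have hl' : f.length = m := by simpa using hl
    have s1 := wa_half kdd hK h P (X ++ Y) q f R hl'
      (fun z hz => by
        have := h1 z hz
        simpa [List.append_assoc] using this)
      (by simpa [List.append_assoc] using h2)
    have s2 := wa_half kdd hK h P (Y ++ X) q f R hl'
      (fun z hz => by
        have := h1 z (by
          rcases List.mem_append.1 hz with h3 | h3
          · exact List.mem_append_right _ h3
          · exact List.mem_append_left _ h3)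
        simp only [List.count_append] at this ⊢
        omega)
      (T.okm f (P ++ X ++ Y ++ q) _ q q h2
        (fun l => by
          simp only [List.count_append]
          omega) (fun z hz => hz))
    have s3 := kcl n θ hK P (X ++ Y ++ pw n (X ++ Y)) (Y ++ X ++ pw n (Y ++ X))
      (q ++ f.flatten ++ R)
      (fun l => by
        rw [← List.count_pos_iff, ← List.count_pos_iff]
        simp only [List.count_append, count_pw]
        rw [add_comm (X.count l) (Y.count l)])
      (fun l hl => by
        have h4 := List.count_pos_iff.2 hl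
        simp only [List.count_append, count_pw] at h4 ⊢
        rcases Nat.eq_zero_or_pos (X.count l + Y.count l) with h5 | h5
        · rw [h5] at h4
          omega
        · nlinarith)
      (fun l hl => by
        have h4 := List.count_pos_iff.2 hl
        simp only [List.count_append, count_pw] at h4 ⊢
        rcases Nat.eq_zero_or_pos (Y.count l + X.count l) with h5 | h5
        · rw [h5] at h4
          omega
        · nlinarith)
      (fun l => by
        simp only [List.count_append, count_pw]
        rw [add_comm (X.count l) (Y.count l)])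
    simp only [List.append_assoc, List.flatten_cons] at s1 s2 s3 ⊢
    exact θ.trans s1 (θ.trans s3 s2.symm)

theorem wf_wr {m : ℕ} {θ : FIC} (h : WF m θ) (j : ℕ) : WR m j θ := by
  intro P X C qs R hX hl hO
  refine h P (pw j X) C qs R hl (ok_gen hO (fun l => ?_) (fun z hz => ?_))
  · simp only [List.count_append]
    omega
  · rcases List.mem_append.1 hz with hz | hz
    · right
      have h1 := hX z (mem_pw _ _ _ hz)
      simp only [List.count_append]
      omega
    · exact Or.inl hz

theorem dg_wf {n : ℕ} {θ : FIC} (hK : Kn n θ) (h : Dg n θ) : WF 0 θ := by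
  intro P X Y qs R hl _
  have hq : qs = [] := List.eq_nil_of_length_eq_zero hl
  subst hq
  have hp : ∀ Z : List ℕ, RR θ Z (pw (n + 1) Z) := by
    intro Z
    have := RR.sub (fun _ => Z) h
    rw [flatMap_replicate] at this
    simpa using this
  have hc := RR.sub (fun i => if i = 0 then X else Y) hK.c
  rw [List.flatMap_append, List.flatMap_append, flatMap_replicate, flatMap_replicate] at hc
  have hc' : RR θ (pw (n + 1) X ++ pw (n + 1) Y) (pw (n + 1) Y ++ pw (n + 1) X) := by
    simpa using hc
  have s1 : RR θ (X ++ Y) (Y ++ X) :=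
    θ.trans ((hp X).append (hp Y)) (θ.trans hc' ((hp Y).append (hp X)).symm)
  have s2 := ((RR.refl P).append s1).append (RR.refl R)
  simpa [List.append_assoc] using s2

theorem lvn (kdd : KddStmt) (kpg : KpgStmt) (kcl : KclStmt) : LvnStmt := by
  intro n θ hK m
  have hn := hK.pos
  refine ⟨fun j hj hL => ?_, fun hL => ?_, fun h j => wf_wr h j, dg_wf hK⟩
  · match j, hj, hL with
    | 0, _, hL => exact wf_wb hn hL
    | 1, _, hL =>
      have hL' : WBn n m θ := hL
      show (if 0 + 1 ≤ m then WDn n m (0 + 1) θ else WAn n m θ)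
      split_ifs
      · exact wb_wd kpg hK hL'
      · exact wb_wa kpg hK hL'
    | e + 2, hj, hL =>
      have hem : e + 1 ≤ m := by omega
      have hL' : WDn n m (e + 1) θ := by
        have h1 : (if e + 1 ≤ m then WDn n m (e + 1) θ else WAn n m θ) := hL
        rw [if_pos hem] at h1
        exact h1
      show (if (e + 1) + 1 ≤ m then WDn n m ((e + 1) + 1) θ else WAn n m θ)
      split_ifs with h2
      · exact wd_wd (by omega) h2 hL'
      · exact wd_wa hL'
  · have h1 : (if m + 1 ≤ m then WDn n m (m + 1) θ else WAn n m θ) := hL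
    rw [if_neg (by omega)] at h1
    exact wa_wf kdd kcl hK h1

end Pool.Agent.MWKP.H33
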